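import Pool.Agent.H63.RW6

set_option autoImplicit false

namespace Pool.Agent.Results.MP_342291_lc.Positive

open Pool.Agent.H63.RW

theorem result : ∃ (A0 A1 A2 : Type) (_ : Finite A0) (_ : Finite A1) (_ : Finite A2)
    (_ : Nonempty A0) (R : Set (Tm A0 A1 A2 ℕ × Tm A0 A1 A2 ℕ)), R.Finite ∧
    (∀ p ∈ R, (∀ v, p.1 ≠ .var v) ∧ ∀ v, p.2.Occ v → p.1.Occ v) ∧
    ¬ ComputablePred (Holds R) :=
  main

end Pool.Agent.Results.MP_342291_lc.Positive
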